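import Mathlib
import Pool.Agent.H74.Degen

set_option autoImplicit false

namespace Pool.Agent.Results.MP_c79496_ag.PrimePmd

open Finset MvPolynomial Pool.Agent.H74.Degen

/-- `M` is a positive matching of the hypergraph on `Fin n` with edge set `E`. -/
def IsPositiveMatching {n : ℕ} (E M : Finset (Finset (Fin n))) : Prop :=
  M ⊆ E ∧ (∀ A ∈ M, ∀ B ∈ M, A ≠ B → Disjoint A B) ∧
    ∃ w : Fin n → ℝ, (∀ A ∈ M, 0 < ∑ i ∈ A, w i) ∧ ∀ A ∈ E \ M, ∑ i ∈ A, w i < 0

/-- `P 0, …, P (p-1)` is a positive matching decomposition of `E`. -/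
def IsPMD {n p : ℕ} (E : Finset (Finset (Fin n))) (P : Fin p → Finset (Finset (Fin n))) : Prop :=
  (∀ i j, i ≠ j → Disjoint (P i) (P j)) ∧ Finset.univ.biUnion P = E ∧
    ∀ i, IsPositiveMatching (E \ (Finset.Iio i).biUnion P) (P i)

/-- The least number of parts of a positive matching decomposition. -/
noncomputable def pmd {n : ℕ} (E : Finset (Finset (Fin n))) : ℕ :=
  sInf {p : ℕ | ∃ P : Fin p → Finset (Finset (Fin n)), IsPMD E P}

/-- The LSS ideal of the hypergraph with edge set `E` in dimension `d`. -/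
noncomputable def lss (k : Type) [Field k] {n : ℕ} (E : Finset (Finset (Fin n))) (d : ℕ) :
    Ideal (MvPolynomial (Fin n × Fin d) k) :=
  Ideal.span {g | ∃ e ∈ E, g = ∑ l : Fin d, ∏ i ∈ e, X (i, l)}

def Dec {n : ℕ} : ℕ → Finset (Finset (Fin n)) → Prop
  | 0, E => E = ∅
  | p + 1, E => ∃ M, IsPositiveMatching E M ∧ Dec p (E \ M)

theorem Dec.mono {n : ℕ} : ∀ (p : ℕ) (E F : Finset (Finset (Fin n))), Dec p E → F ⊆ E → Dec p F
  | 0, _, _, h, hF => subset_empty.1 (h ▸ hF)
  | p + 1, E, F, ⟨M, ⟨_, h2, w, h3, h4⟩, h5⟩, hF => by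
    refine ⟨M ∩ F, ⟨inter_subset_right, fun A hA B hB => h2 A (mem_inter.1 hA).1 B (mem_inter.1 hB).1,
      w, fun A hA => h3 A (mem_inter.1 hA).1, fun A hA => h4 A ?_⟩, Dec.mono p _ _ h5 ?_⟩
    · simp only [mem_sdiff, mem_inter] at hA ⊢
      tauto
    · intro A hA
      simp only [mem_sdiff, mem_inter] at hA ⊢
      tauto

theorem dec_of {n : ℕ} : ∀ (p : ℕ) (E : Finset (Finset (Fin n)))
    (P : Fin p → Finset (Finset (Fin n))), E ⊆ Finset.univ.biUnion P →
    (∀ i, IsPositiveMatching (E \ (Finset.Iio i).biUnion P) (P i)) → Dec p E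
  | 0, E, P, h, _ => by simpa [Dec] using h
  | p + 1, E, P, h, h1 => by
    have h0 := h1 0
    have e0 : Iio (0 : Fin (p + 1)) = ∅ := by ext; simp
    rw [e0, biUnion_empty, sdiff_empty] at h0
    refine ⟨P 0, h0, dec_of p _ (fun i => P i.succ) (fun A hA => ?_) (fun i => ?_)⟩
    · have := h (mem_sdiff.1 hA).1
      simp only [mem_biUnion, mem_univ, true_and, Fin.exists_fin_succ] at this ⊢
      exact this.resolve_left (mem_sdiff.1 hA).2
    · convert h1 i.succ using 1
      ext A
      simp only [mem_sdiff, mem_biUnion, mem_Iio, Fin.exists_fin_succ, Fin.succ_lt_succ_iff,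
        Fin.succ_pos, true_and, not_or, and_assoc]

theorem exists_pmd {n : ℕ} (E : Finset (Finset (Fin n)))
    (hcl : ∀ e ∈ E, ∀ e' ∈ E, e ⊆ e' → e = e') (hne : ∀ e ∈ E, e.Nonempty) :
    ∃ P : Fin E.card → Finset (Finset (Fin n)), IsPMD E P := by
  refine ⟨fun i => {(E.equivFin.symm i : Finset (Fin n))}, fun i j h => ?_, ?_, fun i => ?_⟩
  · rw [disjoint_singleton]
    exact fun h1 => h (E.equivFin.symm.injective (Subtype.ext h1))
  · ext A
    simp only [mem_biUnion, mem_univ, true_and, mem_singleton]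
    exact ⟨fun ⟨i, h⟩ => h ▸ (E.equivFin.symm i).2, fun h => ⟨E.equivFin ⟨A, h⟩, by simp⟩⟩
  · refine ⟨?_, by simp, fun v => if v ∈ (E.equivFin.symm i : Finset (Fin n)) then 1 else -(n + 1),
      ?_, ?_⟩
    · rw [singleton_subset_iff, mem_sdiff]
      refine ⟨(E.equivFin.symm i).2, ?_⟩
      simp only [mem_biUnion, mem_Iio, mem_singleton, not_exists, not_and]
      exact fun j hj h1 => hj.ne' (E.equivFin.symm.injective (Subtype.ext h1))
    · intro A hA
      rw [mem_singleton.1 hA]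
      exact sum_pos (fun v hv => by simp [hv]) (hne _ (E.equivFin.symm i).2)
    · intro A hA
      simp only [mem_sdiff, mem_singleton] at hA
      obtain ⟨v, h1, h2⟩ := not_subset.1 (fun h => hA.2 (hcl A hA.1.1 _ (E.equivFin.symm i).2 h))
      rw [← add_sum_erase _ _ h1, if_neg h2]
      have h3 : ∑ x ∈ A.erase v, (if x ∈ (E.equivFin.symm i : Finset (Fin n)) then (1 : ℝ)
          else -(n + 1)) ≤ (A.erase v).card • (1 : ℝ) := by
        apply sum_le_card_nsmul
        intro x _
        split_ifs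
        · exact le_rfl
        · have : (0 : ℝ) ≤ n := by positivity
          linarith
      have h4 : ((A.erase v).card : ℝ) ≤ n := by
        exact_mod_cast (card_le_univ _).trans_eq (Fintype.card_fin n)
      rw [nsmul_eq_mul, mul_one] at h3
      linarith

theorem weights {n : ℕ} (E M : Finset (Finset (Fin n))) (h : IsPositiveMatching E M)
    (hne : ∀ e ∈ E, e.Nonempty) : ∃ (K : ℕ) (W : Fin n → ℕ), (∀ A ∈ M, ∑ i ∈ A, W i = K * A.card) ∧
      ∀ A ∈ E \ M, ∑ i ∈ A, W i < K * A.card := by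
  obtain ⟨h1, h2, w, h3, h4⟩ := h
  obtain ⟨N, hN0, hN⟩ : ∃ N : ℝ, 0 < N ∧ ∀ A ∈ M, (n : ℝ) ≤ N * ∑ i ∈ A, w i := by
    refine ⟨1 + ∑ A ∈ M, n / ∑ i ∈ A, w i, ?_, fun A hA => ?_⟩
    · have : 0 ≤ ∑ A ∈ M, (n : ℝ) / ∑ i ∈ A, w i :=
        sum_nonneg (fun A hA => div_nonneg (by positivity) (h3 A hA).le)
      linarith
    · rw [← div_le_iff₀ (h3 A hA)]
      have := single_le_sum (f := fun A => (n : ℝ) / ∑ i ∈ A, w i)
        (fun A hA => div_nonneg (by positivity) (h3 A hA).le) hA
      linarith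
  let u : Fin n → ℤ := fun i => ⌊N * w i⌋
  have u1 : ∀ A ∈ M, 0 ≤ ∑ i ∈ A, u i := by
    intro A hA
    have e1 : ∑ i ∈ A, (N * w i - 1) ≤ ∑ i ∈ A, (u i : ℝ) :=
      sum_le_sum (fun i _ => (Int.sub_one_lt_floor _).le)
    rw [sum_sub_distrib, ← mul_sum, sum_const, nsmul_eq_mul, mul_one] at e1
    have e2 : (A.card : ℝ) ≤ n := by exact_mod_cast (card_le_univ _).trans_eq (Fintype.card_fin n)
    have e3 := hN A hA
    have : (0 : ℝ) ≤ ∑ i ∈ A, (u i : ℝ) := by linarith
    exact_mod_cast this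
  have u2 : ∀ A ∈ E \ M, ∑ i ∈ A, u i < 0 := by
    intro A hA
    have e1 : ∑ i ∈ A, (u i : ℝ) ≤ ∑ i ∈ A, N * w i := sum_le_sum (fun i _ => Int.floor_le _)
    rw [← mul_sum] at e1
    have : ∑ i ∈ A, (u i : ℝ) < 0 := e1.trans_lt (mul_neg_of_pos_of_neg hN0 (h4 A hA))
    exact_mod_cast this
  choose v hv using fun B : M => (hne B (h1 B.2)).exists_mem
  let a : Fin n → ℤ := fun i => u i - ∑ B : M, if v B = i then ∑ x ∈ B.1, u x else 0
  have a0 : ∀ A : Finset (Fin n), ∑ i ∈ A, a i
      = ∑ i ∈ A, u i - ∑ B : M, if v B ∈ A then ∑ x ∈ B.1, u x else 0 := by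
    intro A
    rw [sum_sub_distrib, sum_comm]
    simp only [sum_ite_eq]
  have a1 : ∀ A ∈ M, ∑ i ∈ A, a i = 0 := by
    intro A hA
    rw [a0, sum_eq_single (⟨A, hA⟩ : M), if_pos (hv ⟨A, hA⟩), sub_self]
    · intro B _ hB
      rw [if_neg]
      exact fun h => disjoint_left.1 (h2 B B.2 A hA (fun e => hB (Subtype.ext e))) (hv B) h
    · simp
  have a2 : ∀ A ∈ E \ M, ∑ i ∈ A, a i < 0 := by
    intro A hA
    have : 0 ≤ ∑ B : M, if v B ∈ A then ∑ x ∈ B.1, u x else 0 :=
      sum_nonneg (fun B _ => by split_ifs; exacts [u1 B B.2, le_rfl])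
    rw [a0]
    linarith [u2 A hA]
  let K : ℕ := ∑ i, (a i).natAbs
  have hK : ∀ i, (((K + a i).toNat : ℕ) : ℤ) = K + a i := by
    intro i
    apply Int.toNat_of_nonneg
    have : (a i).natAbs ≤ K := single_le_sum (f := fun i => (a i).natAbs) (by simp) (mem_univ i)
    omega
  have hS : ∀ A : Finset (Fin n), ((∑ i ∈ A, (K + a i).toNat : ℕ) : ℤ)
      = (K * A.card : ℕ) + ∑ i ∈ A, a i := by
    intro A
    rw [Nat.cast_sum]
    simp only [hK, sum_add_distrib, sum_const, nsmul_eq_mul]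
    push_cast
    ring
  refine ⟨K, fun i => (K + a i).toNat, fun A hA => ?_, fun A hA => ?_⟩
  · have := hS A
    rw [a1 A hA] at this
    beta_reduce
    omega
  · have := hS A
    have := a2 A hA
    beta_reduce
    omega

section
variable {k : Type} [Field k] {n d : ℕ}

noncomputable def mono (k : Type) [Field k] {n d : ℕ} (e : Finset (Fin n)) (l : Fin d) :
    MvPolynomial (Fin n × Fin d) k := ∏ i ∈ e, X (i, l)

noncomputable def fe (k : Type) [Field k] {n d : ℕ} (D : Finset (Fin d)) (e : Finset (Fin n)) :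
    MvPolynomial (Fin n × Fin d) k := ∑ l ∈ D, mono k e l

noncomputable def pt (k : Type) [Field k] {n d : ℕ} (e : Finset (Fin n)) (l : Fin d) :
    MvPolynomial (Fin n × Fin d) k →+* k :=
  eval (fun v => if v.1 ∈ e ∧ v.2 = l then 1 else 0)

theorem pt_zero (D : Finset (Fin d)) (e e' : Finset (Fin n)) (l : Fin d) (h : ¬ e' ⊆ e) :
    pt k e l (fe k D e') = 0 := by
  obtain ⟨v, h1, h2⟩ := not_subset.1 h
  rw [fe, map_sum]
  apply sum_eq_zero
  intro l' _
  rw [mono, map_prod]
  exact prod_eq_zero h1 (by simp [pt, h2])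

theorem pt_one (D : Finset (Fin d)) (e : Finset (Fin n)) (l : Fin d) (h : e.Nonempty)
    (hl : l ∈ D) : pt k e l (fe k D e) = 1 := by
  obtain ⟨v, h1⟩ := h
  rw [fe, map_sum, sum_eq_single l _ (fun h => absurd hl h)]
  · rw [mono, map_prod]
    exact prod_eq_one (fun i hi => by simp [pt, hi])
  · intro l' _ h
    rw [mono, map_prod]
    exact prod_eq_zero h1 (by simp [pt, h])

theorem not_mem {S : Type} [CommRing S] (φ : S →+* k) (T : Set S) (hT : ∀ g ∈ T, φ g = 0) (x : S)
    (hx : φ x = 1) : x ∉ Ideal.span T := fun h => by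
  have : Ideal.span T ≤ RingHom.ker φ := Ideal.span_le.2 hT
  have := this h
  rw [RingHom.mem_ker, hx] at this
  exact one_ne_zero this

theorem reg_prod {S ι : Type} [CommRing S] [DecidableEq ι] (T : Set S)
    (hP : (Ideal.span T).IsPrime) (x : ι → S) (b : S) (A : Finset ι)
    (h1 : ∀ i ∈ A, (Ideal.span (insert (x i) T)).IsPrime) (h2 : ∀ i ∈ A, x i ∉ Ideal.span T)
    (h3 : ∀ i ∈ A, b ∉ Ideal.span (insert (x i) T)) :
    ∀ c, b * c ∈ Ideal.span (insert (∏ i ∈ A, x i) T) → c ∈ Ideal.span (insert (∏ i ∈ A, x i) T) := by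
  induction A using Finset.induction_on with
  | empty =>
    intro c _
    rw [prod_empty, Ideal.mem_span_insert]
    exact ⟨c, 0, zero_mem _, by simp⟩
  | insert i A hi ih =>
    have ih := ih (fun j hj => h1 j (mem_insert_of_mem hj)) (fun j hj => h2 j (mem_insert_of_mem hj))
      (fun j hj => h3 j (mem_insert_of_mem hj))
    intro c hc
    rw [prod_insert hi, Ideal.mem_span_insert] at hc ⊢
    obtain ⟨u, z, hz, hc⟩ := hc
    have e1 : b * c ∈ Ideal.span (insert (x i) T) :=
      Ideal.mem_span_insert.2 ⟨u * ∏ i ∈ A, x i, z, hz, by rw [hc]; ring⟩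
    obtain ⟨c', z', hz', rfl⟩ := Ideal.mem_span_insert.1
      (((h1 i (mem_insert_self _ _)).mem_or_mem e1).resolve_left (h3 i (mem_insert_self _ _)))
    have e2 : x i * (b * c' - u * ∏ i ∈ A, x i) ∈ Ideal.span T := by
      rw [show x i * (b * c' - u * ∏ i ∈ A, x i) = z - b * z' by linear_combination hc]
      exact sub_mem hz (Ideal.mul_mem_left _ _ hz')
    have e3 := (hP.mem_or_mem e2).resolve_left (h2 i (mem_insert_self _ _))
    obtain ⟨u', z'', hz'', rfl⟩ := Ideal.mem_span_insert.1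
      (ih c' (Ideal.mem_span_insert.2 ⟨u, _, e3, by ring⟩))
    exact ⟨u', z'' * x i + z', add_mem (Ideal.mul_mem_right _ _ hz'') hz', by ring⟩

noncomputable def th (k : Type) [Field k] {σ : Type} [DecidableEq σ] (v : σ) :
    MvPolynomial σ k →+* Polynomial (MvPolynomial σ k) :=
  eval₂Hom (Polynomial.C.comp C) (fun u => if u = v then Polynomial.X else Polynomial.C (X u))

theorem th_eval {σ : Type} [DecidableEq σ] (v : σ) (g : MvPolynomial σ k) :
    (th k v g).eval (X v) = g := by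
  have : (Polynomial.evalRingHom (X v)).comp (th k v) = RingHom.id _ := by
    apply MvPolynomial.ringHom_ext
    · intro r; simp [th]
    · intro u
      by_cases h : u = v <;> simp [th, h]
  exact RingHom.congr_fun this g

theorem th_mono (v : Fin n × Fin d) (e : Finset (Fin n)) (l : Fin d) (h : v.1 ∈ e → v.2 ≠ l) :
    th k v (mono k e l) = Polynomial.C (mono k e l) := by
  rw [mono, map_prod, map_prod]
  apply prod_congr rfl
  intro i hi
  have : (i, l) ≠ v := by
    rintro rfl
    exact h hi rfl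
  simp [th, this]

theorem th_fe (v : Fin n × Fin d) (e : Finset (Fin n)) (D : Finset (Fin d))
    (h : v.1 ∈ e → v.2 ∉ D) : th k v (fe k D e) = Polynomial.C (fe k D e) := by
  rw [fe, map_sum, map_sum]
  exact sum_congr rfl (fun l hl => th_mono v e l (fun h1 h2 => h h1 (h2 ▸ hl)))

noncomputable def tw (k : Type) [Field k] {σ : Type} (w : σ → ℕ) :
    MvPolynomial σ k →+* Polynomial (MvPolynomial σ k) :=
  eval₂Hom (Polynomial.C.comp C) (fun u => Polynomial.monomial (w u) (X u))

theorem tw_eval {σ : Type} (w : σ → ℕ) (g : MvPolynomial σ k) : (tw k w g).eval 1 = g := by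
  have : (Polynomial.evalRingHom 1).comp (tw k w) = RingHom.id _ := by
    apply MvPolynomial.ringHom_ext
    · intro r; simp [tw]
    · intro u; simp [tw]
  exact RingHom.congr_fun this g

theorem tw_hom {σ : Type} (w : σ → ℕ) (g : MvPolynomial σ k) : ∀ m,
    tw k w ((tw k w g).coeff m) = Polynomial.monomial m ((tw k w g).coeff m) := by
  have hX : ∀ u, tw k w (X u) = Polynomial.monomial (w u) (X u) := fun u => by simp [tw]
  have hC : ∀ a, tw k w (C a) = Polynomial.C (C a) := fun u => by simp [tw]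
  induction g using MvPolynomial.induction_on with
  | C a =>
    intro m
    rw [hC, Polynomial.coeff_C]
    split_ifs with h
    · rw [hC, h, Polynomial.monomial_zero_left]
    · simp
  | add p q hp hq =>
    intro m
    rw [map_add, Polynomial.coeff_add, map_add, hp, hq, map_add]
  | mul_X p u hp =>
    intro m
    rw [map_mul, hX]
    by_cases h : w u ≤ m
    · obtain ⟨r, rfl⟩ := Nat.exists_eq_add_of_le' h
      rw [Polynomial.coeff_mul_monomial, map_mul, hp, hX, Polynomial.monomial_mul_monomial]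
    · rw [← Polynomial.C_mul_X_pow_eq_monomial, ← mul_assoc, Polynomial.coeff_mul_X_pow', if_neg h]
      simp

theorem tw_mono (w : Fin n × Fin d → ℕ) (e : Finset (Fin n)) (l : Fin d) :
    tw k w (mono k e l) = Polynomial.monomial (∑ i ∈ e, w (i, l)) (mono k e l) := by
  induction e using Finset.induction_on with
  | empty => simp [mono]
  | insert i e hi ih =>
    rw [mono] at ih
    rw [mono, prod_insert hi, sum_insert hi, map_mul, ih, ← Polynomial.monomial_mul_monomial]
    simp [tw]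

theorem step (E M : Finset (Finset (Fin n))) (hM : M ⊆ E)
    (hdis : ∀ A ∈ M, ∀ B ∈ M, A ≠ B → Disjoint A B)
    (hcl : ∀ e ∈ E, ∀ e' ∈ E, e ⊆ e' → e = e') (hne : ∀ e ∈ E, e.Nonempty)
    (D : Finset (Fin d)) (l0 l1 : Fin d) (h0 : l0 ∈ D) (h1 : l1 ∉ D)
    (s : Finset (Finset (Fin n))) (hs : s ⊆ E \ M) (hp : (Ideal.span (fe k D '' (s : Set (Finset (Fin n))))).IsPrime)
    (t : Finset (Finset (Fin n))) (ht : t ⊆ M) :
    (Ideal.span (fe k (insert l1 D) '' (t : Set (Finset (Fin n))) ∪ fe k D '' (s : Set (Finset (Fin n))))).IsPrime := by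
  induction t using Finset.induction_on with
  | empty => simpa using hp
  | insert e t het ih =>
    have ih := ih ((subset_insert e t).trans ht)
    have heM : e ∈ M := ht (mem_insert_self e t)
    have heE := hM heM
    set T := fe k (insert l1 D) '' (t : Set (Finset (Fin n))) ∪ fe k D '' (s : Set (Finset (Fin n))) with hT
    have k1 : ∀ l, ∀ g ∈ T, pt k e l g = 0 := by
      rintro l g (⟨A, hA, rfl⟩ | ⟨A, hA, rfl⟩)
      · refine pt_zero _ _ _ _ (fun h => het ?_)
        rwa [← hcl A (hM (ht (mem_insert_of_mem hA))) e heE h]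
      · refine pt_zero _ _ _ _ (fun h => (mem_sdiff.1 (hs hA)).2 ?_)
        rwa [hcl A (mem_sdiff.1 (hs hA)).1 e heE h]
    have k2 : ∀ i ∈ e, ∀ g ∈ T, th k (i, l1) g = Polynomial.C g := by
      rintro i hi g (⟨A, hA, rfl⟩ | ⟨A, hA, rfl⟩)
      · refine th_fe _ _ _ (fun h => absurd hi ?_)
        exact disjoint_left.1 (hdis A (ht (mem_insert_of_mem hA)) e heM
          (fun h => het (h ▸ hA))) h
      · exact th_fe _ _ _ (fun _ => h1)
    obtain ⟨i0, hi0⟩ := hne e heE
    have k3 : fe k (insert l1 D) e = mono k (e.erase i0) l1 * X (i0, l1) + fe k D e := by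
      rw [fe, sum_insert h1, mono, mono, prod_erase_mul _ _ hi0, fe]
    rw [coe_insert, Set.image_insert_eq, Set.insert_union, k3]
    refine lin_prime (th k (i0, l1)) _ (th_eval _) T (k2 i0 hi0) ih _ _ ?_ ?_ ?_
    · rw [map_add, map_mul, th_mono _ _ _ (by simp), th_fe _ _ _ (fun _ => h1)]
      simp [th]
    · refine not_mem (pt k e l1) T (k1 l1) _ ?_
      rw [mono, map_prod]
      exact prod_eq_one (fun i hi => by simp [pt, mem_of_mem_erase hi])
    · refine reg_prod T ih (fun i => X (i, l1)) _ _ (fun i hi => ?_) (fun i hi => ?_)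
        (fun i hi => ?_)
      · have := lin_prime (th k (i, l1)) _ (th_eval _) T (k2 i (mem_of_mem_erase hi)) ih 1 0
          (by simp [th]) (not_mem (pt k e l1) T (k1 l1) _ (map_one _))
          (fun c _ => Ideal.mem_span_insert.2 ⟨c, 0, zero_mem _, by simp⟩)
        rwa [one_mul, add_zero] at this
      · exact not_mem (pt k e l1) T (k1 l1) _ (by simp [pt, mem_of_mem_erase hi])
      · refine not_mem (pt k e l0) _ ?_ _ (pt_one _ _ _ ⟨i0, hi0⟩ h0)
        rintro g (rfl | hg)
        · have : l1 ≠ l0 := fun h => h1 (h ▸ h0)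
          simp [pt, this]
        · exact k1 l0 g hg

theorem main : ∀ (p : ℕ) (E : Finset (Finset (Fin n))) (D : Finset (Fin d)),
    (∀ e ∈ E, ∀ e' ∈ E, e ⊆ e' → e = e') → (∀ e ∈ E, e.Nonempty) → Dec p E → p + 1 ≤ D.card →
    (Ideal.span (fe k D '' (E : Set (Finset (Fin n))))).IsPrime
  | 0, E, D, _, _, h, _ => by
    rw [show E = ∅ from h]
    simpa using Ideal.isPrime_bot
  | p + 1, E, D, hcl, hne, ⟨M, hM, hD⟩, hc => by
    obtain ⟨l1, hl1⟩ : D.Nonempty := card_pos.1 (by omega)
    have hc' : p + 1 ≤ (D.erase l1).card := by rw [card_erase_of_mem hl1]; omega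
    obtain ⟨l0, hl0⟩ : (D.erase l1).Nonempty := card_pos.1 (by omega)
    obtain ⟨K, W, w1, w2⟩ := weights E M hM hne
    let w : Fin n × Fin d → ℕ := fun v => if v.2 = l1 then W v.1 else K
    have hD' : D = insert l1 (D.erase l1) := (insert_erase hl1).symm
    have k1 : ∀ e, tw k w (fe k D e) = Polynomial.monomial (∑ i ∈ e, W i) (mono k e l1)
        + Polynomial.monomial (K * e.card) (fe k (D.erase l1) e) := by
      intro e
      rw [fe, ← add_sum_erase _ _ hl1, map_add, tw_mono, map_sum, fe, map_sum]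
      congr 1
      · simp [w]
      · apply sum_congr rfl
        intro l hl
        rw [tw_mono]
        simp [w, ne_of_mem_erase hl, mul_comm]
    let δ : Finset (Fin n) → ℕ := fun e => max (∑ i ∈ e, W i) (K * e.card)
    let j : Finset (Fin n) → MvPolynomial (Fin n × Fin d) k :=
      fun e => (tw k w (fe k D e)).coeff (δ e)
    have j1 : ∀ e ∈ M, j e = fe k D e := by
      intro e he
      simp only [j, δ, k1, w1 e he, max_self, Polynomial.coeff_add, Polynomial.coeff_monomial_same]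
      rw [fe, fe, add_sum_erase _ _ hl1]
    have j2 : ∀ e ∈ E \ M, j e = fe k (D.erase l1) e := by
      intro e he
      simp only [j, δ, k1, max_eq_right (w2 e he).le, Polynomial.coeff_add,
        Polynomial.coeff_monomial, if_neg (w2 e he).ne, if_true, zero_add]
    refine degen (tw k w) (fe k D) j δ (tw_eval w) (tw_hom w) (fun e => ?_) (fun _ => rfl) E
      (fun s hs => ?_) (fun s hs e he hes => ?_)
    · rw [k1]
      exact (Polynomial.natDegree_add_le _ _).trans
        (max_le_max (Polynomial.natDegree_monomial_le _) (Polynomial.natDegree_monomial_le _))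
    · have h1 : s \ M ⊆ E \ M := sdiff_subset_sdiff hs subset_rfl
      have h2 : s \ M ⊆ E := h1.trans sdiff_subset
      have := step (k := k) E M hM.1 hM.2.1 hcl hne (D.erase l1) l0 l1 hl0 (notMem_erase _ _)
        (s \ M) h1 (main p _ _ (fun e he e' he' => hcl e (h2 he) e' (h2 he'))
          (fun e he => hne e (h2 he)) (Dec.mono p _ _ hD h1) hc') (s ∩ M) inter_subset_right
      rw [← hD', ← Set.image_congr (fun e he => j1 e (mem_inter.1 he).2),
        ← Set.image_congr (fun e he => j2 e (h1 he)), ← Set.image_union, ← coe_union] at this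
      rwa [union_comm, sdiff_union_inter] at this
    · have k2 : ∀ A ∈ E, ∃ F, l0 ∈ F ∧ j A = fe k F A := by
        intro A hA
        by_cases h : A ∈ M
        · exact ⟨D, mem_of_mem_erase hl0, j1 A h⟩
        · exact ⟨_, hl0, j2 A (mem_sdiff.2 ⟨hA, h⟩)⟩
      refine not_mem (pt k e l0) _ ?_ _ ?_
      · rintro _ ⟨A, hA, rfl⟩
        obtain ⟨F, _, hF⟩ := k2 A (hs hA)
        rw [hF]
        refine pt_zero _ _ _ _ (fun h => hes ?_)
        rwa [← hcl A (hs hA) e he h]
      · obtain ⟨F, h1, hF⟩ := k2 e he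
        rw [hF]
        exact pt_one _ _ _ (hne e he) h1

end

/-- For every field, every clutter hypergraph on `Fin n` and every `d ≥ pmd + 1`,
the LSS ideal is prime. -/
theorem result (k : Type) [Field k] (n : ℕ) (E : Finset (Finset (Fin n)))
    (hne : ∀ e ∈ E, e.Nonempty) (hcl : ∀ e ∈ E, ∀ e' ∈ E, e ⊆ e' → e = e')
    (d : ℕ) (hd : pmd E + 1 ≤ d) : (lss k E d).IsPrime := by
  obtain ⟨P, hP⟩ : pmd E ∈ {p : ℕ | ∃ P : Fin p → Finset (Finset (Fin n)), IsPMD E P} :=
    Nat.sInf_mem ⟨_, exists_pmd E hcl hne⟩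
  have := main (k := k) (pmd E) E (univ : Finset (Fin d)) hcl hne
    (dec_of _ E P hP.2.1.ge hP.2.2) (by simpa using hd)
  convert this using 2
  rw [lss]
  congr 1
  ext g
  simp only [Set.mem_ofPred_eq, Set.mem_image, mem_coe, fe, mono, eq_comm]

end Pool.Agent.Results.MP_c79496_ag.PrimePmd
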